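import Pool.Agent.H25.CFL.Targets

/-!
# MP_e37c09_lc: row LZ, the cofinality in HOD is not constant on a positive set
-/

open Ordinal Cardinal Order Set
open scoped ZFSet

universe u

namespace Pool.Agent.H7.HCL.LZ

open _root_.HD Pool.Agent.H25.CFL

/-- the least ordinal with a definable property -/
private theorem DR_sInf {A : Ordinal.{u} → Ordinal.{u} → Prop} (hA : DR A) :
    DR fun a b => b = sInf {c | A a c} := by
  have h1 : ∀ i j : ℕ, DO fun w => A (w i) (w j) := fun i j => DO.s2 hA i j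
  have h2 : DO fun w => ∀ c, c < w 1 → ¬ A (w 0) c :=
    DO.all (R := fun c w => c < w 1 → ¬ A (w 0) c) ((DO.lt 0 2).imp (h1 1 0).not)
  have h3 : DO fun w => ∃ c, A (w 0) c :=
    DO.ex (R := fun c w => A (w 0) c) (h1 1 0)
  have h4 : DO fun w => (A (w 0) (w 1) ∧ ∀ c, c < w 1 → ¬ A (w 0) c) ∨
      ((¬ ∃ c, A (w 0) c) ∧ w 1 = 0) := ((h1 0 1).and h2).or (h3.not.and (DO.eqc 1 0))
  refine h4.congr fun w => ?_
  show w 1 = sInf {c | A (w 0) c} ↔ _
  constructor
  · intro h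
    by_cases hne : ∃ c, A (w 0) c
    · left
      have hm : sInf {c | A (w 0) c} ∈ {c | A (w 0) c} := csInf_mem hne
      rw [← h] at hm
      refine ⟨hm, fun c hc hA => ?_⟩
      rw [h] at hc
      exact absurd (csInf_le' (show c ∈ {c | A (w 0) c} from hA)) (not_le.2 hc)
    · right
      refine ⟨hne, ?_⟩
      rw [h]
      have : {c | A (w 0) c} = ∅ := by
        ext c
        exact ⟨fun hc => hne ⟨c, hc⟩, fun hc => hc.elim⟩
      rw [this, Ordinal.sInf_empty]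
  · rintro (⟨ha, hb⟩ | ⟨ha, hb⟩)
    · apply le_antisymm
      · by_contra hc
        rw [not_le] at hc
        exact hb _ hc (csInf_mem (s := {c | A (w 0) c}) ⟨_, ha⟩)
      · exact csInf_le' ha
    · have : {c | A (w 0) c} = ∅ := by
        ext c
        exact ⟨fun hc => ha ⟨c, hc⟩, fun hc => hc.elim⟩
      rw [hb, this, Ordinal.sInf_empty]

private theorem clb_univ {lam : Ordinal.{u}} (h : IsSuccLimit lam) : Clb lam univ where
  unb a ha := ⟨succ a, h.succ_lt ha, lt_succ a, mem_univ _⟩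
  cls _ _ _ _ := mem_univ _

theorem pf_LZ (hWN : T_WN.{u}) (hBF : T_BF.{u}) (hDL : T_DL.{u}) (hDA : T_DA.{u})
    (hVA : T_VA.{u}) (hVB : T_VB.{u}) : T_LZ.{u} := by
  classical
  intro M lam h c hSt z hz hpos
  obtain ⟨hc, hM, hreg, hMl, hNS⟩ := hSt
  have hω : ℵ₀ < lam.cof := hM.aleph0_le.trans_lt hMl
  let S : Set Ordinal.{u} := {x | IsSuccLimit x ∧ h x = z}
  -- definability
  have hS : DS S := by
    refine DO.and hDL ?_
    exact (DO.ex (R := fun y w => y = h (w 0) ∧ y = z)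
      ((DO.s2 (X := fun x y => y = h x) hc.dh 1 0).and (DO.eqc 0 z))).congr fun w => by simp
  have hcd : ∀ i j k : ℕ, DO fun w => w k = c (w i) (w j) := fun i j k =>
    DO.s3 (X := fun a b d => d = c a b) hc.dc i j k
  -- the cofinality of `z`
  obtain ⟨x0, hx0, -, hx0S, hx0c⟩ := hpos univ (clb_univ hreg.1)
  have hz2 : z.cof = M := by
    have h1 := hc.cof x0 hx0S.1
    rw [hx0S.2] at h1
    rw [h1]
    exact Cardinal.ord_injective hx0c
  have hz3 : RegHOD z := by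
    have h1 := hc.reg x0 hx0S.1
    rwa [hx0S.2] at h1
  have hz0 : 0 < z := by
    rw [pos_iff_ne_zero]
    rintro rfl
    simpa using hz3.1.1
  -- the bounds
  have hN : ∀ i < z, ∃ b < lam, ¬ Pos M.ord lam {x | x ∈ S ∧ b ≤ c x i} := by
    intro i hi
    have hfd : DR fun a b => b = if a ∈ S then c a i else 0 := by
      have e1 : DO fun w : ℕ → Ordinal.{u} => w 1 = c (w 0) i := by
        refine DO.sub (R := fun i w => w 1 = c (w 0) i) i ?_
        exact hcd 1 0 2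
      refine ((DO.and (DO.s1 (X := fun a => a ∈ S) hS 0) e1).or
        ((DO.s1 (X := fun a => a ∈ S) hS 0).not.and (DO.eqc 1 0))).congr fun w => ?_
      by_cases hw : w 0 ∈ S
      · simp only [hw, if_true, true_and, not_true_eq_false, false_and, or_false]
      · simp only [hw, if_false, false_and, not_false_eq_true, true_and, false_or]
    obtain ⟨b, hb, hb2⟩ := hWN M lam hM hreg hMl hNS S (fun a => if a ∈ S then c a i else 0) hS hfd
      (by
        intro x hx hxl hx0'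
        rw [if_pos hx]
        exact hc.lt x hx.1 i (by rw [hx.2]; exact hi))
    refine ⟨b, hb, fun hP => hb2 (hP.mono fun x _ hx _ => ?_)⟩
    refine ⟨hx.1, ?_⟩
    show b ≤ if x ∈ S then c x i else 0
    rw [if_pos hx.1]
    exact hx.2
  let g : Ordinal.{u} → Ordinal.{u} := fun i => sInf {b | ¬ Pos M.ord lam {x | x ∈ S ∧ b ≤ c x i}}
  have hgN : ∀ i < z, ¬ Pos M.ord lam {x | x ∈ S ∧ g i ≤ c x i} := by
    intro i hi
    obtain ⟨b, hb, hb2⟩ := hN i hi
    exact csInf_mem (s := {b | ¬ Pos M.ord lam {x | x ∈ S ∧ b ≤ c x i}}) ⟨b, hb2⟩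
  have hgl : ∀ i < z, g i < lam := by
    intro i hi
    obtain ⟨b, hb, hb2⟩ := hN i hi
    exact (csInf_le' (show b ∈ {b | ¬ Pos M.ord lam {x | x ∈ S ∧ b ≤ c x i}} from hb2)).trans_lt hb
  have hgd : DR fun a b => b = g a := by
    apply DR_sInf
    have e0 : DO fun w : ℕ → Ordinal.{u} => w 0 ∈ S ∧ w 4 ≤ c (w 0) (w 3) := by
      refine DO.and hS ?_
      exact (DO.ex (R := fun y w => y = c (w 0) (w 3) ∧ w 4 ≤ y)
        ((hcd 1 4 0).and (DO.le 5 0))).congr fun w => by simp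
    have e1 : DO fun w : ℕ → Ordinal.{u} => Pos (w 0) (w 1) {x | x ∈ S ∧ w 3 ≤ c x (w 2)} :=
      hDA 0 1 (fun x w => x ∈ S ∧ w 3 ≤ c x (w 2)) e0
    have e2 : DO fun w : ℕ → Ordinal.{u} => Pos M.ord (w 0) {x | x ∈ S ∧ w 2 ≤ c x (w 1)} :=
      DO.sub (R := fun a w => Pos a (w 0) {x | x ∈ S ∧ w 2 ≤ c x (w 1)}) M.ord e1
    have e3 : DO fun w : ℕ → Ordinal.{u} => Pos M.ord lam {x | x ∈ S ∧ w 1 ≤ c x (w 0)} :=
      DO.sub (R := fun a w => Pos M.ord a {x | x ∈ S ∧ w 1 ≤ c x (w 0)}) lam e2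
    exact e3.not
  obtain ⟨b, hb, hgb⟩ := hBF lam hreg z hz g hgd hgl
  obtain ⟨k, hk1, hk2⟩ := Pool.Agent.H74.HD.XH.cofinal_fun hz0
  rw [hz2] at hk1 hk2
  have hU : ¬ Pos M.ord lam {x | ∃ m < M.ord, x ∈ S ∧ g (k m) ≤ c x (k m)} := by
    refine hVA M.ord lam hω M.ord ?_ (fun m => {x | x ∈ S ∧ g (k m) ≤ c x (k m)}) ?_
    · rw [Cardinal.card_ord]
      exact hMl
    · intro m hm
      exact hgN (k m) (hk1 m hm)
  have hB := hVB M.ord lam (succ b) hreg.1 (hreg.1.succ_lt hb)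
  obtain ⟨x, hxl, -, ⟨hxS, hxn⟩, -⟩ := pos_diff hVA hω hpos (null_union hVA hω hU hB) univ
    (clb_univ hreg.1)
  have hbx : b < x := by
    by_contra hc
    exact hxn (Or.inr (show x < succ b from lt_succ_iff.2 (not_lt.1 hc)))
  obtain ⟨i, hi, hbi⟩ := hc.unb x hxS.1 b hbx
  have hi' : i < z := by
    have := hi
    rwa [hxS.2] at this
  obtain ⟨m, hm, him⟩ := hk2 i hi'
  have e1 : c x i ≤ c x (k m) := by
    rcases him.eq_or_lt with h1 | h1
    · rw [h1]
    · exact (hc.mono x hxS.1 i (k m) h1 (by rw [hxS.2]; exact hk1 m hm)).le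
  have e2 : c x (k m) < g (k m) := by
    by_contra hcon
    exact hxn (Or.inl ⟨m, hm, hxS, not_lt.1 hcon⟩)
  exact lt_irrefl b ((hbi.trans e1).trans_lt (e2.trans (hgb (k m) (hk1 m hm))))

end Pool.Agent.H7.HCL.LZ
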