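import Pool.Agent.H25.CFL.Targets

/-!
# MP_e37c09_lc: row WN, weak normality
-/

open Ordinal Cardinal Order Set
open scoped ZFSet

universe u

namespace Pool.Agent.H7.HCL

open _root_.HD Pool.Agent.H25.CFL

/-- substitution of the value of a definable function for the variable `0` -/
private theorem app {f : Ordinal.{u} → Ordinal.{u}} (hf : DR fun a b => b = f a) (i : ℕ)
    {P : Ordinal.{u} → (ℕ → Ordinal.{u}) → Prop}
    (h : DO fun w => P (w 0) (fun n => w (n + 1))) : DO fun w => P (f (w i)) w :=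
  (DO.ex (R := fun y w => y = f (w i) ∧ P y w)
    ((DO.s2 (X := fun a b => b = f a) hf (i + 1) 0).and h)).congr fun w => by simp

/-- the least ordinal with a definable property -/
private theorem DR_sInf {A : Ordinal.{u} → Ordinal.{u} → Prop} (hA : DR A) :
    DR fun a b => b = sInf {c | A a c} := by
  have h1 : ∀ i j : ℕ, DO fun w => A (w i) (w j) := fun i j => DO.s2 hA i j
  have h2 : DO fun w => ∀ c, c < w 1 → ¬ A (w 0) c :=
    DO.all (R := fun c w => c < w 1 → ¬ A (w 0) c) ((DO.lt 0 2).imp (h1 1 0).not)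
  have h3 : DO fun w => ∃ c, A (w 0) c :=
    DO.ex (R := fun c w => A (w 0) c) (h1 1 0)
  have h4 : DO fun w => (A (w 0) (w 1) ∧ ∀ c, c < w 1 → ¬ A (w 0) c) ∨
      ((¬ ∃ c, A (w 0) c) ∧ w 1 = 0) := ((h1 0 1).and h2).or (h3.not.and (DO.eqc 1 0))
  refine h4.congr fun w => ?_
  show w 1 = sInf {c | A (w 0) c} ↔ _
  constructor
  · intro h
    by_cases hne : ∃ c, A (w 0) c
    · left
      have hm : sInf {c | A (w 0) c} ∈ {c | A (w 0) c} := csInf_mem hne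
      rw [← h] at hm
      refine ⟨hm, fun c hc hA => ?_⟩
      rw [h] at hc
      exact absurd (csInf_le' (show c ∈ {c | A (w 0) c} from hA)) (not_le.2 hc)
    · right
      refine ⟨hne, ?_⟩
      rw [h]
      have : {c | A (w 0) c} = ∅ := by
        ext c
        exact ⟨fun hc => hne ⟨c, hc⟩, fun hc => hc.elim⟩
      rw [this, Ordinal.sInf_empty]
  · rintro (⟨ha, hb⟩ | ⟨ha, hb⟩)
    · apply le_antisymm
      · by_contra hc
        rw [not_le] at hc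
        exact hb _ hc (csInf_mem (s := {c | A (w 0) c}) ⟨_, ha⟩)
      · exact csInf_le' ha
    · have : {c | A (w 0) c} = ∅ := by
        ext c
        exact ⟨fun hc => ha ⟨c, hc⟩, fun hc => hc.elim⟩
      rw [hb, this, Ordinal.sInf_empty]

theorem pf_WN (hUV : T_UV.{u}) (hKI : T_KI.{u}) (hDB : T_DB.{u}) (hVH : T_VH.{u})
    (hDA : T_DA.{u}) : T_WN.{u} := by
  intro M lam hM hreg hMl hNS S f hS hf hfr
  have hω : ℵ₀ < lam.cof := hM.aleph0_le.trans_lt hMl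
  by_contra hcon
  push Not at hcon
  -- the definable predicate
  have hX0 : DO fun w : ℕ → Ordinal.{u} => w 0 ∈ S ∧ w 3 ≤ f (w 0) ∧ f (w 0) < w 4 := by
    refine DO.and hS ?_
    exact app (P := fun y w => w 3 ≤ y ∧ y < w 4) hf 0 ((DO.le 4 0).and (DO.lt 0 5))
  have hP : DO fun w : ℕ → Ordinal.{u} =>
      Pos (w 0) (w 1) {x | x ∈ S ∧ w 2 ≤ f x ∧ f x < w 3} :=
    hDA 0 1 (fun x w => x ∈ S ∧ w 2 ≤ f x ∧ f x < w 3) hX0
  have hP1 : DO fun w : ℕ → Ordinal.{u} =>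
      Pos M.ord (w 0) {x | x ∈ S ∧ w 1 ≤ f x ∧ f x < w 2} :=
    DO.sub (R := fun a w => Pos a (w 0) {x | x ∈ S ∧ w 1 ≤ f x ∧ f x < w 2}) M.ord hP
  have hP2 : DR fun ξ a => Pos M.ord lam {x | x ∈ S ∧ ξ ≤ f x ∧ f x < a} :=
    DO.sub (R := fun a w => Pos M.ord a {x | x ∈ S ∧ w 0 ≤ f x ∧ f x < w 1}) lam hP1
  -- the function `F`
  let F : Ordinal.{u} → Ordinal.{u} := fun ξ =>
    sInf {a | Pos M.ord lam {x | x ∈ S ∧ ξ ≤ f x ∧ f x < a}}
  have hFd : DR fun a b => b = F a := DR_sInf hP2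
  have hex : ∀ ξ < lam, ∃ a < lam, Pos M.ord lam {x | x ∈ S ∧ ξ ≤ f x ∧ f x < a} := by
    intro ξ hξ
    obtain ⟨a, ha, h⟩ := hUV M.ord lam hω {x | x ∈ S ∧ ξ ≤ f x} f (hcon ξ hξ)
      (fun b hb hbl hb0 => hfr b hb.1 hbl hb0)
    exact ⟨a, ha, h.mono fun b _ hb _ => ⟨hb.1.1, hb.1.2, hb.2⟩⟩
  have hFpos : ∀ ξ < lam, Pos M.ord lam {x | x ∈ S ∧ ξ ≤ f x ∧ f x < F ξ} := by
    intro ξ hξ
    obtain ⟨a, ha, h⟩ := hex ξ hξ
    exact csInf_mem (s := {a | Pos M.ord lam {x | x ∈ S ∧ ξ ≤ f x ∧ f x < a}}) ⟨a, h⟩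
  have hFlt : ∀ ξ < lam, F ξ < lam := by
    intro ξ hξ
    obtain ⟨a, ha, h⟩ := hex ξ hξ
    exact (csInf_le' (show a ∈ {a | Pos M.ord lam {x | x ∈ S ∧ ξ ≤ f x ∧ f x < a}} from h)).trans_lt
      ha
  have hFmono : ∀ ζ ξ, ζ ≤ ξ → ξ < lam → F ζ ≤ F ξ := by
    intro ζ ξ hζ hξ
    refine csInf_le' ?_
    exact (hFpos ξ hξ).mono fun b _ hb _ => ⟨hb.1, hζ.trans hb.2.1, hb.2.2⟩
  obtain ⟨hXd, hXn⟩ := hKI lam F hω hreg hFd hFlt hFmono
  let X : Set Ordinal.{u} := {ξ | ξ < lam ∧ ∀ ζ < ξ, F ζ ≤ ξ}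
  have hV := hVH X
  -- the sequence of disjoint positive sets
  have hn : DO fun w : ℕ → Ordinal.{u} => nth X (w 0) (w 1) :=
    hDB (fun a _ => a ∈ X) hXd
  have hn' : ∀ i j : ℕ, DO fun w : ℕ → Ordinal.{u} => nth X (w i) (w j) := fun i j =>
    DO.s2 (X := fun a b => nth X a b) hn i j
  have hsd : DR fun b i => ∃ i' z z', (i < i' ∧ ∀ y, y < i' → y ≤ i) ∧ nth X i z ∧ nth X i' z' ∧
      b ∈ S ∧ z ≤ f b ∧ f b < z' := by
    refine DO.ex (R := fun i' w => ∃ z z', (w 1 < i' ∧ ∀ y, y < i' → y ≤ w 1) ∧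
      nth X (w 1) z ∧ nth X i' z' ∧ w 0 ∈ S ∧ z ≤ f (w 0) ∧ f (w 0) < z') ?_
    refine DO.ex (R := fun z w => ∃ z', (w 2 < w 0 ∧ ∀ y, y < w 0 → y ≤ w 2) ∧
      nth X (w 2) z ∧ nth X (w 0) z' ∧ w 1 ∈ S ∧ z ≤ f (w 1) ∧ f (w 1) < z') ?_
    refine DO.ex (R := fun z' w => (w 3 < w 1 ∧ ∀ y, y < w 1 → y ≤ w 3) ∧
      nth X (w 3) (w 0) ∧ nth X (w 1) z' ∧ w 2 ∈ S ∧ w 0 ≤ f (w 2) ∧ f (w 2) < z') ?_
    refine DO.and (DO.and (DO.lt 4 2) ?_) (DO.and (hn' 4 1) (DO.and (hn' 2 0)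
      (DO.and (DO.s1 (X := fun a => a ∈ S) hS 3) ?_)))
    · exact DO.all (R := fun y w => y < w 2 → y ≤ w 4) ((DO.lt 0 3).imp (DO.le 0 5))
    · exact app (P := fun y w => w 1 ≤ y ∧ y < w 0) hf 3 ((DO.le 2 0).and (DO.lt 0 1))
  have hsucc : ∀ {i i' : Ordinal.{u}}, (i < i' ∧ ∀ y, y < i' → y ≤ i) → i' = succ i := by
    rintro i i' ⟨h1, h2⟩
    apply le_antisymm
    · by_contra hc
      rw [not_le] at hc
      exact absurd (h2 _ hc) (not_le.2 (lt_succ i))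
    · exact succ_le_of_lt h1
  refine hNS _ hsd ?_ ?_
  · -- disjoint
    have key : ∀ b i i', i < i' →
        (∃ j z z', (i < j ∧ ∀ y, y < j → y ≤ i) ∧ nth X i z ∧ nth X j z' ∧
          b ∈ S ∧ z ≤ f b ∧ f b < z') →
        (∃ j z z', (i' < j ∧ ∀ y, y < j → y ≤ i') ∧ nth X i' z ∧ nth X j z' ∧
          b ∈ S ∧ z ≤ f b ∧ f b < z') → False := by
      rintro b i i' hii ⟨j, z, z', hj, h1, h2, -, -, h3⟩ ⟨j', y, y', -, h4, -, -, h5, -⟩
      have e1 := hsucc hj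
      have e2 : ¬ i' < j := by
        rw [e1, not_lt]
        exact succ_le_of_lt hii
      have e3 : ¬ y < z' := fun h => e2 ((hV.2.1 _ _ _ _ h4 h2).2 h)
      exact e3 (h5.trans_lt h3)
    intro b i i' h1 h2
    rcases lt_trichotomy i i' with h | h | h
    · exact (key b i i' h h1 h2).elim
    · exact h
    · exact (key b i' i h h2 h1).elim
  · -- positive
    intro i hi
    have hil : i < lam := hi.trans_le (Cardinal.ord_card_le lam)
    have hsl : succ i < lam := hreg.1.succ_lt hil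
    obtain ⟨z, hz⟩ := hXn i hil
    obtain ⟨z', hz'⟩ := hXn (succ i) hsl
    have hzz : z < z' := (hV.2.1 _ _ _ _ hz hz').1 (lt_succ i)
    have hzl : z < lam := hz.1.1
    have hF : F z ≤ z' := hz'.1.2 z hzz
    refine (hFpos z hzl).mono fun b _ hb _ => ?_
    exact ⟨succ i, z, z', ⟨lt_succ i, fun y hy => lt_succ_iff.1 hy⟩, hz, hz', hb.1, hb.2.1,
      hb.2.2.trans_le hF⟩

end Pool.Agent.H7.HCL
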